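import Mathlib

/-!
# Odd functions on `(ℤ/m)ˣ` and differences of two CM types

Every nonzero odd rational function `h` on the group `(ℤ/m)ˣ` has an integral combination of
translates which is a nonzero multiple of a function with values in `{-1, 0, 1}`.
-/

set_option autoImplicit false

namespace Pool.Agent.N214.GP

open Finset Polynomial

variable {m : ℕ} [NeZero m]

/-- the Fourier coefficient -/
noncomputable def fc (h : (ZMod m)ˣ → ℚ) (χ : DirichletCharacter ℂ m) : ℂ :=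
  ∑ u : (ZMod m)ˣ, (h u : ℂ) * χ (u : ZMod m)

lemma eq_zero_of_fc (h : (ZMod m)ˣ → ℚ) (H : ∀ χ, fc h χ = 0) : h = 0 := by
  classical
  funext a
  have h1 : ∑ χ : DirichletCharacter ℂ m, χ (a : ZMod m)⁻¹ * fc h χ = 0 :=
    Finset.sum_eq_zero fun χ _ => by rw [H χ, mul_zero]
  have h2 : ∑ χ : DirichletCharacter ℂ m, χ (a : ZMod m)⁻¹ * fc h χ
      = ∑ u : (ZMod m)ˣ, (h u : ℂ) * ∑ χ : DirichletCharacter ℂ m,
        χ (a : ZMod m)⁻¹ * χ (u : ZMod m) := by
    simp only [fc, Finset.mul_sum]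
    rw [Finset.sum_comm]
    refine Finset.sum_congr rfl fun u _ => Finset.sum_congr rfl fun χ _ => ?_
    ring
  rw [h2] at h1
  simp only [DirichletCharacter.sum_char_inv_mul_char_eq ℂ a.isUnit] at h1
  rw [Finset.sum_eq_single a] at h1
  · rw [if_pos rfl] at h1
    rcases mul_eq_zero.1 h1 with h3 | h3
    · exact_mod_cast h3
    · exfalso
      have : m.totient = 0 := by exact_mod_cast h3
      exact (Nat.totient_pos.2 (Nat.pos_of_ne_zero (NeZero.ne m))).ne' this
  · intro b _ hb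
    rw [if_neg, mul_zero]
    intro hab
    exact hb (Units.ext hab.symm)
  · intro h3
    exact absurd (Finset.mem_univ a) h3

/-- the convolution -/
def cv (x y : (ZMod m)ˣ → ℚ) (u : (ZMod m)ˣ) : ℚ := ∑ g, x g * y (u * g⁻¹)

lemma fc_cv (x y : (ZMod m)ˣ → ℚ) (χ : DirichletCharacter ℂ m) :
    fc (cv x y) χ = fc x χ * fc y χ := by
  classical
  have e : ∀ g : (ZMod m)ˣ, ∑ u : (ZMod m)ˣ, (y (u * g⁻¹) : ℂ) * χ (u : ZMod m)
      = χ (g : ZMod m) * fc y χ := by
    intro g
    rw [fc, Finset.mul_sum, ← Equiv.sum_comp (Equiv.mulRight g)]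
    refine Finset.sum_congr rfl fun u _ => ?_
    simp only [Equiv.coe_mulRight, mul_inv_cancel_right, Units.val_mul, map_mul]
    ring
  calc fc (cv x y) χ = ∑ u : (ZMod m)ˣ, ∑ g : (ZMod m)ˣ,
        (x g : ℂ) * ((y (u * g⁻¹) : ℂ) * χ (u : ZMod m)) := by
        rw [fc]
        refine Finset.sum_congr rfl fun u _ => ?_
        rw [cv]
        push_cast
        rw [Finset.sum_mul]
        refine Finset.sum_congr rfl fun g _ => ?_
        ring
    _ = ∑ g : (ZMod m)ˣ, (x g : ℂ) * (χ (g : ZMod m) * fc y χ) := by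
        rw [Finset.sum_comm]
        refine Finset.sum_congr rfl fun g _ => ?_
        rw [← Finset.mul_sum, e]
    _ = fc x χ * fc y χ := by
        have e2 : fc x χ = ∑ u : (ZMod m)ˣ, (x u : ℂ) * χ (u : ZMod m) := rfl
        rw [e2, Finset.sum_mul]
        refine Finset.sum_congr rfl fun g _ => ?_
        ring

lemma fc_sub (x y : (ZMod m)ˣ → ℚ) (χ : DirichletCharacter ℂ m) :
    fc (x - y) χ = fc x χ - fc y χ := by
  simp only [fc, Pi.sub_apply, Rat.cast_sub, sub_mul, Finset.sum_sub_distrib]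

lemma ext_fc {x y : (ZMod m)ˣ → ℚ} (H : ∀ χ, fc x χ = fc y χ) : x = y := by
  have := eq_zero_of_fc (x - y) fun χ => by rw [fc_sub, H χ, sub_self]
  exact sub_eq_zero.1 this

/-- convolution as a linear map -/
def cvL (x : (ZMod m)ˣ → ℚ) : ((ZMod m)ˣ → ℚ) →ₗ[ℚ] ((ZMod m)ˣ → ℚ) where
  toFun y := cv x y
  map_add' y z := by
    funext u
    simp only [cv, Pi.add_apply, mul_add, Finset.sum_add_distrib]
  map_smul' c y := by
    funext u
    simp only [cv, Pi.smul_apply, smul_eq_mul, RingHom.id_apply, Finset.mul_sum]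
    refine Finset.sum_congr rfl fun g _ => ?_
    ring

/-- If the Fourier coefficients of `h` do not vanish where those of `f` do not vanish, then `f` is a
convolution of `h` with some function. -/
lemma exists_cv (h f : (ZMod m)ˣ → ℚ) (H : ∀ χ, fc f χ ≠ 0 → fc h χ ≠ 0) :
    ∃ w, f = cv h w := by
  let W := LinearMap.range (cvL f)
  have hW : ∀ w ∈ W, cvL h w ∈ W := by
    rintro w ⟨r, rfl⟩
    refine ⟨cv h r, ?_⟩
    apply ext_fc
    intro χ
    change fc (cv f (cv h r)) χ = fc (cv h (cv f r)) χ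
    rw [fc_cv, fc_cv, fc_cv, fc_cv]
    ring
  let L := (cvL h).restrict hW
  have hinj : Function.Injective L := by
    rw [injective_iff_map_eq_zero]
    rintro ⟨w, r, rfl⟩ hw
    have h1 : cv h (cv f r) = 0 := congrArg Subtype.val hw
    apply Subtype.ext
    change cv f r = 0
    apply eq_zero_of_fc
    intro χ
    have h2 : fc (cv h (cv f r)) χ = 0 := by
      rw [h1]
      simp [fc]
    rw [fc_cv, fc_cv] at h2
    rw [fc_cv]
    by_cases hf : fc f χ = 0
    · rw [hf, zero_mul]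
    · rcases mul_eq_zero.1 h2 with h3 | h3
      · exact absurd h3 (H χ hf)
      · exact h3
  have hsurj : Function.Surjective L := LinearMap.injective_iff_surjective.1 hinj
  have hf : f ∈ W := by
    refine ⟨Pi.single 1 1, ?_⟩
    funext u
    change cv f (Pi.single 1 1) u = f u
    rw [cv, Finset.sum_eq_single u]
    · simp
    · intro g _ hg
      rw [Pi.single_eq_of_ne, mul_zero]
      intro hh
      exact hg (mul_inv_eq_one.1 hh).symm
    · intro hu
      exact absurd (Finset.mem_univ u) hu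
  obtain ⟨w, hw⟩ := hsurj ⟨f, hf⟩
  exact ⟨w.1, (congrArg Subtype.val hw).symm⟩

/-- the exponent of a set of prime numbers -/
def ex (d : ℕ) (S : Finset ℕ) : ℕ := ∑ l ∈ S, d / l

lemma ex_injOn {d : ℕ} (hd : 0 < d) {S T : Finset ℕ} (hS : S ⊆ d.primeFactors)
    (hT : T ⊆ d.primeFactors) (h : ex d S ≡ ex d T [MOD d]) : S = T := by
  have key : ∀ {S : Finset ℕ}, S ⊆ d.primeFactors → ∀ l ∈ d.primeFactors,
      (l ^ d.factorization l ∣ ex d S ↔ l ∉ S) := by
    intro S hS l hl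
    have hlp := Nat.prime_of_mem_primeFactors hl
    have hld := Nat.dvd_of_mem_primeFactors hl
    have h1 : ∀ q ∈ S, q ≠ l → l ^ d.factorization l ∣ d / q := by
      intro q hq hql
      have hqp := Nat.prime_of_mem_primeFactors (hS hq)
      have hqd := Nat.dvd_of_mem_primeFactors (hS hq)
      have h2 : l ^ d.factorization l ∣ q * (d / q) := by
        rw [Nat.mul_div_cancel' hqd]
        exact Nat.ordProj_dvd d l
      refine Nat.Coprime.dvd_of_dvd_mul_left ?_ h2
      exact Nat.Coprime.pow_left _ ((Nat.coprime_primes hlp hqp).2 (Ne.symm hql))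
    have h3 : ¬ l ^ d.factorization l ∣ d / l := by
      intro h4
      have h5 : l ^ (d.factorization l + 1) ∣ d := by
        obtain ⟨k, hk⟩ := h4
        refine Dvd.intro k ?_
        rw [pow_succ, mul_right_comm, ← hk, mul_comm, Nat.mul_div_cancel' hld]
      exact Nat.pow_succ_factorization_not_dvd hd.ne' hlp h5
    constructor
    · intro h4 hlS
      apply h3
      rw [ex, ← Finset.add_sum_erase _ _ hlS] at h4
      refine (Nat.dvd_add_left ?_).1 h4
      refine Finset.dvd_sum fun q hq => ?_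
      exact h1 q (Finset.mem_of_mem_erase hq) (Finset.ne_of_mem_erase hq)
    · intro hlS
      refine Finset.dvd_sum fun q hq => h1 q hq ?_
      rintro rfl
      exact hlS hq
  have h6 : ∀ l ∈ d.primeFactors, (l ∈ S ↔ l ∈ T) := by
    intro l hl
    have h7 : l ^ d.factorization l ∣ d := Nat.ordProj_dvd d l
    have h8 : (l ^ d.factorization l ∣ ex d S ↔ l ^ d.factorization l ∣ ex d T) :=
      (h.of_dvd h7).dvd_iff (dvd_refl _)
    rw [key hS l hl, key hT l hl] at h8
    tauto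
  ext l
  constructor
  · intro hl
    exact (h6 l (hS hl)).1 hl
  · intro hl
    exact (h6 l (hT hl)).2 hl

section char

variable (χ : DirichletCharacter ℂ m)

lemma exists_gen : ∃ σ : (ZMod m)ˣ, ∀ g : (ZMod m)ˣ, ∃ j : ℕ,
    χ (g : ZMod m) = χ (σ : ZMod m) ^ j := by
  classical
  have : Finite (χ.toUnitHom.range) := Finite.of_surjective (χ.toUnitHom.rangeRestrict)
    χ.toUnitHom.rangeRestrict_surjective
  have : IsCyclic (χ.toUnitHom.range) := inferInstance
  obtain ⟨⟨_, σ, rfl⟩, hz⟩ := IsCyclic.exists_generator (α := χ.toUnitHom.range)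
  refine ⟨σ, fun g => ?_⟩
  have h1 := hz ⟨χ.toUnitHom g, g, rfl⟩
  rw [mem_zpowers_iff_mem_range_orderOf] at h1
  obtain ⟨j, -, hj⟩ := Finset.mem_image.1 h1
  refine ⟨j, ?_⟩
  have h2 := congrArg (fun x : χ.toUnitHom.range => ((x.1 : ℂˣ) : ℂ)) hj
  simp only [SubmonoidClass.mk_pow, Units.val_pow_eq_pow_val, MulChar.coe_toUnitHom] at h2
  exact h2.symm

/-- the function with values in `{-1, 0, 1}` -/
noncomputable def ff (d : ℕ) (z : ℂ) (u : (ZMod m)ˣ) : ℚ :=
  open Classical in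
  ∑ S ∈ d.primeFactors.powerset, if χ (u : ZMod m) = z ^ ex d S then (-1) ^ S.card else 0

lemma ff_values {d : ℕ} (hd : 0 < d) {z : ℂ} (hz : IsPrimitiveRoot z d) (u : (ZMod m)ˣ) :
    ff χ d z u = 0 ∨ ff χ d z u = 1 ∨ ff χ d z u = -1 := by
  classical
  by_cases h : ∃ S ∈ d.primeFactors.powerset, χ (u : ZMod m) = z ^ ex d S
  · obtain ⟨S, hS, hSu⟩ := h
    right
    have h1 : ff χ d z u = (-1) ^ S.card := by
      rw [ff, Finset.sum_eq_single S]
      · rw [if_pos hSu]
      · intro T hT hTS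
        rw [if_neg]
        intro hTu
        apply hTS
        rw [hSu] at hTu
        refine ex_injOn hd (Finset.mem_powerset.1 hT) (Finset.mem_powerset.1 hS) ?_
        rw [(hz.isOfFinOrder hd.ne').pow_eq_pow_iff_modEq, ← hz.eq_orderOf] at hTu
        exact hTu.symm
      · intro h2
        exact absurd hS h2
    rw [h1]
    exact neg_one_pow_eq_or ℚ _
  · left
    rw [ff]
    refine Finset.sum_eq_zero fun S hS => ?_
    rw [if_neg]
    intro h1
    exact h ⟨S, hS, h1⟩

lemma ff_one {d : ℕ} (hd : 0 < d) {z : ℂ} (hz : IsPrimitiveRoot z d) :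
    ff χ d z 1 = 1 := by
  classical
  rw [ff, Finset.sum_eq_single ∅]
  · simp [ex]
  · intro T hT hTS
    rw [if_neg]
    intro hTu
    apply hTS
    refine ex_injOn hd (Finset.mem_powerset.1 hT) (Finset.empty_subset _) ?_
    have h1 : z ^ ex d T = z ^ ex d ∅ := by
      rw [← hTu]
      simp [ex]
    rw [(hz.isOfFinOrder hd.ne').pow_eq_pow_iff_modEq, ← hz.eq_orderOf] at h1
    exact h1
  · intro h
    exact absurd (Finset.mem_powerset.2 (Finset.empty_subset _)) h

lemma fc_ff {d : ℕ} {σ : (ZMod m)ˣ} (ψ : DirichletCharacter ℂ m) :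
    open Classical in
    fc (ff χ d (χ (σ : ZMod m))) ψ
      = (∑ u : (ZMod m)ˣ, if χ (u : ZMod m) = 1 then ψ (u : ZMod m) else 0) *
        ∏ l ∈ d.primeFactors, (1 - ψ (σ : ZMod m) ^ (d / l)) := by
  classical
  have hσ0 : χ (σ : ZMod m) ≠ 0 := fun h => by
    have := (χ.toUnitHom σ).ne_zero
    rw [MulChar.coe_toUnitHom] at this
    exact this h
  have e : ∀ S : Finset ℕ, ∑ u : (ZMod m)ˣ,
      (if χ (u : ZMod m) = χ (σ : ZMod m) ^ ex d S then ψ (u : ZMod m) else 0)
      = ψ (σ : ZMod m) ^ ex d S * ∑ u : (ZMod m)ˣ,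
        if χ (u : ZMod m) = 1 then ψ (u : ZMod m) else 0 := by
    intro S
    rw [← Equiv.sum_comp (Equiv.mulRight (σ ^ ex d S)), Finset.mul_sum]
    refine Finset.sum_congr rfl fun u _ => ?_
    simp only [Equiv.coe_mulRight, Units.val_mul, Units.val_pow_eq_pow_val, map_mul, map_pow]
    by_cases h : χ (u : ZMod m) = 1
    · rw [if_pos h, if_pos (by rw [h, one_mul]), mul_comm]
    · rw [if_neg h, if_neg, mul_zero]
      intro h1
      exact h (mul_right_cancel₀ (pow_ne_zero _ hσ0) (h1.trans (one_mul _).symm))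
  have h1 : fc (ff χ d (χ (σ : ZMod m))) ψ = ∑ S ∈ d.primeFactors.powerset,
      (-1) ^ S.card * ∑ u : (ZMod m)ˣ,
        (if χ (u : ZMod m) = χ (σ : ZMod m) ^ ex d S then ψ (u : ZMod m) else 0) := by
    rw [fc]
    simp only [ff]
    push_cast
    simp only [Finset.sum_mul, Finset.mul_sum]
    rw [Finset.sum_comm]
    refine Finset.sum_congr rfl fun S _ => Finset.sum_congr rfl fun u _ => ?_
    split_ifs <;> simp
  rw [h1]
  simp only [e]
  have h2 : ∏ l ∈ d.primeFactors, (1 - ψ (σ : ZMod m) ^ (d / l))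
      = ∑ S ∈ d.primeFactors.powerset, (-1) ^ S.card * ψ (σ : ZMod m) ^ ex d S := by
    have h3 : ∀ l ∈ d.primeFactors, (1 - ψ (σ : ZMod m) ^ (d / l))
        = 1 + (-ψ (σ : ZMod m) ^ (d / l)) := fun l _ => by ring
    rw [Finset.prod_congr rfl h3, Finset.prod_one_add]
    refine Finset.sum_congr rfl fun S _ => ?_
    rw [Finset.prod_neg, Finset.prod_pow_eq_pow_sum, ex]
  rw [h2, Finset.mul_sum]
  refine Finset.sum_congr rfl fun S _ => ?_
  ring

lemma conj_of_ne {d : ℕ} (hd : 0 < d) {σ : (ZMod m)ˣ} (hz : IsPrimitiveRoot (χ (σ : ZMod m)) d)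
    (ψ : DirichletCharacter ℂ m)
    (hψ : fc (ff χ d (χ (σ : ZMod m))) ψ ≠ 0) :
    IsPrimitiveRoot (ψ (σ : ZMod m)) d ∧ ∀ g : (ZMod m)ˣ, ∀ j : ℕ,
      χ (g : ZMod m) = χ (σ : ZMod m) ^ j → ψ (g : ZMod m) = ψ (σ : ZMod m) ^ j := by
  classical
  rw [fc_ff] at hψ
  have h1 := left_ne_zero_of_mul hψ
  have h2 := right_ne_zero_of_mul hψ
  rw [Finset.prod_ne_zero_iff] at h2
  have hK : ∀ k : (ZMod m)ˣ, χ (k : ZMod m) = 1 → ψ (k : ZMod m) = 1 := by
    intro k hk
    by_contra hne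
    apply h1
    have h3 : ∑ u : (ZMod m)ˣ, (if χ (u : ZMod m) = 1 then ψ (u : ZMod m) else 0)
        = ψ (k : ZMod m) * ∑ u : (ZMod m)ˣ, (if χ (u : ZMod m) = 1 then ψ (u : ZMod m) else 0) := by
      conv_lhs => rw [← Equiv.sum_comp (Equiv.mulRight k)]
      rw [Finset.mul_sum]
      refine Finset.sum_congr rfl fun u _ => ?_
      simp only [Equiv.coe_mulRight, Units.val_mul, map_mul, hk, mul_one]
      split_ifs
      · ring
      · ring
    have h4 : (1 - ψ (k : ZMod m)) *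
        ∑ u : (ZMod m)ˣ, (if χ (u : ZMod m) = 1 then ψ (u : ZMod m) else 0) = 0 := by
      rw [sub_mul, one_mul, sub_eq_zero]
      exact h3
    rcases mul_eq_zero.1 h4 with h5 | h5
    · exact absurd (sub_eq_zero.1 h5).symm hne
    · exact h5
  have hσ0 : χ (σ : ZMod m) ≠ 0 := hz.ne_zero hd.ne'
  constructor
  · have h6 : ψ (σ : ZMod m) ^ d = 1 := by
      have h7 := hK (σ ^ d) (by
        rw [Units.val_pow_eq_pow_val, map_pow]
        exact hz.pow_eq_one)
      rwa [Units.val_pow_eq_pow_val, map_pow] at h7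
    have h8 : orderOf (ψ (σ : ZMod m)) = d := by
      refine orderOf_eq_of_pow_and_pow_div_prime hd h6 fun p hp hpd h9 => ?_
      exact h2 p (Nat.mem_primeFactors.2 ⟨hp, hpd, hd.ne'⟩) (by rw [h9, sub_self])
    rw [← h8]
    exact IsPrimitiveRoot.orderOf _
  · intro g j hg
    have h9 := hK (g * (σ ^ j)⁻¹) (by
      have h10 : χ ((g * (σ ^ j)⁻¹ : (ZMod m)ˣ) : ZMod m) * χ (σ : ZMod m) ^ j
          = 1 * χ (σ : ZMod m) ^ j := by
        rw [← map_pow, ← Units.val_pow_eq_pow_val, ← map_mul, ← Units.val_mul,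
          inv_mul_cancel_right, hg, one_mul, Units.val_pow_eq_pow_val, map_pow]
      exact mul_right_cancel₀ (pow_ne_zero _ hσ0) h10)
    have h11 : ψ ((g * (σ ^ j)⁻¹ : (ZMod m)ˣ) : ZMod m) * ψ (σ : ZMod m) ^ j
        = ψ (g : ZMod m) := by
      rw [← map_pow, ← Units.val_pow_eq_pow_val, ← map_mul, ← Units.val_mul,
          inv_mul_cancel_right]
    rw [← h11, h9, one_mul]

end char

/-- Every nonzero rational function on `(ℤ/m)ˣ` has a convolution with some function which has values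
in `{-1, 0, 1}` and is not zero. -/
lemma exists_small (h : (ZMod m)ˣ → ℚ) (hh : h ≠ 0) :
    ∃ w f : (ZMod m)ˣ → ℚ, f = cv h w ∧ f ≠ 0 ∧ ∀ u, f u = 0 ∨ f u = 1 ∨ f u = -1 := by
  classical
  obtain ⟨χ, hχ⟩ : ∃ χ, fc h χ ≠ 0 := by
    by_contra hcon
    push Not at hcon
    exact hh (eq_zero_of_fc h hcon)
  obtain ⟨σ, hσ⟩ := exists_gen χ
  set z := χ (σ : ZMod m) with hzdef
  have hfin : IsOfFinOrder z := by
    have h1 : IsOfFinOrder σ := isOfFinOrder_of_finite σ
    obtain ⟨n, hn, hn1⟩ := isOfFinOrder_iff_pow_eq_one.1 h1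
    refine isOfFinOrder_iff_pow_eq_one.2 ⟨n, hn, ?_⟩
    rw [hzdef, ← map_pow, ← Units.val_pow_eq_pow_val, hn1]
    simp
  set d := orderOf z with hd
  have hd0 : 0 < d := hfin.orderOf_pos
  have hz : IsPrimitiveRoot z d := IsPrimitiveRoot.orderOf z
  choose j hj using hσ
  have hne : ∀ ψ, fc (ff χ d z) ψ ≠ 0 → fc h ψ ≠ 0 := by
    intro ψ hψ h0
    obtain ⟨h1, h2⟩ := conj_of_ne χ hd0 hz ψ hψ
    apply hχ
    let P : ℚ[X] := ∑ u : (ZMod m)ˣ, C (h u) * X ^ j u
    have e1 : ∀ (φ : DirichletCharacter ℂ m) (y : ℂ), (∀ u : (ZMod m)ˣ, φ (u : ZMod m) = y ^ j u) →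
        aeval y P = fc h φ := by
      intro φ y hy
      simp only [P, map_sum, map_mul, map_pow, aeval_C, aeval_X, fc]
      refine Finset.sum_congr rfl fun u _ => ?_
      rw [hy u]
      rfl
    have h3 : aeval (ψ (σ : ZMod m)) P = 0 := by
      rw [e1 ψ _ fun u => h2 u (j u) (hj u), h0]
    have h4 : minpoly ℚ (ψ (σ : ZMod m)) ∣ P := minpoly.dvd ℚ _ h3
    rw [← cyclotomic_eq_minpoly_rat h1 hd0, cyclotomic_eq_minpoly_rat hz hd0] at h4
    rw [← e1 χ z hj]
    obtain ⟨Q, hQ⟩ := h4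
    rw [hQ, map_mul, minpoly.aeval, zero_mul]
  obtain ⟨w, hw⟩ := exists_cv h (ff χ d z) hne
  refine ⟨w, ff χ d z, hw, ?_, ff_values χ hd0 hz⟩
  intro h0
  have := ff_one χ hd0 hz
  rw [h0] at this
  simp at this

/-- The statement for integral functions: `∑ α g * h (u * g) = N * f u`. -/
theorem exists_translates (h : (ZMod m)ˣ → ℤ) (hh : h ≠ 0) :
    ∃ (N : ℤ) (α f : (ZMod m)ˣ → ℤ), 0 < N ∧ (∀ u, ∑ g, α g * h (u * g) = N * f u) ∧ f ≠ 0 ∧
      ∀ u, f u = 0 ∨ f u = 1 ∨ f u = -1 := by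
  classical
  obtain ⟨w, f, hf, hf0, hfv⟩ := exists_small (fun u => (h u : ℚ)) (by
    intro h0
    apply hh
    funext u
    have := congrFun h0 u
    simpa using this)
  have hfz : ∀ u, ∃ z : ℤ, f u = z ∧ (z = 0 ∨ z = 1 ∨ z = -1) := by
    intro u
    rcases hfv u with h1 | h1 | h1
    · exact ⟨0, by rw [h1]; simp, Or.inl rfl⟩
    · exact ⟨1, by rw [h1]; simp, Or.inr (Or.inl rfl)⟩
    · exact ⟨-1, by rw [h1]; simp, Or.inr (Or.inr rfl)⟩
  choose F hF hFv using hfz
  let N : ℕ := ∏ g : (ZMod m)ˣ, (w g).den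
  have hN : 0 < N := Finset.prod_pos fun g _ => (w g).den_pos
  have hwz : ∀ g, ∃ z : ℤ, (N : ℚ) * w g⁻¹ = z := by
    intro g
    obtain ⟨k, hk⟩ : (w g⁻¹).den ∣ N := Finset.dvd_prod_of_mem _ (Finset.mem_univ _)
    refine ⟨k * (w g⁻¹).num, ?_⟩
    rw [hk]
    push_cast
    have := Rat.mul_den_eq_num (w g⁻¹)
    linear_combination (k : ℚ) * this
  choose α hα using hwz
  refine ⟨N, α, F, by exact_mod_cast hN, fun u => ?_, ?_, hFv⟩
  · have h1 : f u = ∑ g, w g⁻¹ * (h (u * g) : ℚ) := by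
      rw [hf, cv, ← Equiv.sum_comp (Equiv.mulLeft u)]
      refine Finset.sum_congr rfl fun g _ => ?_
      simp only [Equiv.coe_mulLeft, mul_inv_rev]
      rw [mul_comm, mul_comm g⁻¹ u⁻¹, mul_inv_cancel_left]
    have h2 : ((∑ g, α g * h (u * g) : ℤ) : ℚ) = ((N * F u : ℤ) : ℚ) := by
      push_cast
      rw [← hF u, h1, Finset.mul_sum]
      refine Finset.sum_congr rfl fun g _ => ?_
      rw [← hα g]
      ring
    exact_mod_cast h2
  · intro h0
    apply hf0
    funext u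
    rw [hF u, h0]
    simp

end Pool.Agent.N214.GP
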