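import Pool.Agent.N214.GP.Char

/-!
# Products of gamma values all of whose conjugates are algebraic
-/

set_option autoImplicit false

namespace Pool.Agent.N214.GP

open Finset

/-- The product of the numbers `(Γ(⟨u a⟩ / m) ^ 2 / π) ^ (e a)`, `a ≠ 0` modulo `m`. -/
noncomputable def period (m : ℕ) [NeZero m] (e : ZMod m → ℤ) (u : (ZMod m)ˣ) : ℝ :=
  ∏ a : ZMod m, if a = 0 then 1 else
    (Real.Gamma ((((u : ZMod m) * a).val : ℝ) / m) ^ 2 / Real.pi) ^ e a

/-- The sum of the numbers `e a * (2 ⟨u a⟩ - m)`, `a ≠ 0` modulo `m`. -/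
def excess (m : ℕ) [NeZero m] (e : ZMod m → ℤ) (u : (ZMod m)ˣ) : ℤ :=
  ∑ a : ZMod m, if a = 0 then 0 else e a * (2 * (((u : ZMod m) * a).val : ℤ) - m)

/-- A CM type of `ℚ(ζ_m)`: a set of units which contains exactly one of `u`, `-u`. -/
def IsCMType (m : ℕ) (Φ : Set (ZMod m)ˣ) : Prop := ∀ u, u ∈ Φ ↔ -u ∉ Φ

/-- The indicator function. -/
noncomputable def ind {m : ℕ} (Φ : Set (ZMod m)ˣ) (u : (ZMod m)ˣ) : ℤ :=
  open Classical in if u ∈ Φ then 1 else 0

/-- Deligne's theorem for the periods `P Φ u` of the abelian varieties with complex multiplication of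
type `Φ` by the integers of `ℚ(ζ_m)` and for the gamma values. -/
def Deligne (m : ℕ) [NeZero m] (P : Set (ZMod m)ˣ → (ZMod m)ˣ → ℂ) : Prop :=
  ∀ Φ Ψ : Set (ZMod m)ˣ, IsCMType m Φ → IsCMType m Ψ → ∀ (N : ℤ) (e : ZMod m → ℤ),
    (∀ u, excess m e u = N * (ind Φ u - ind Ψ u)) →
      ∀ u, IsAlgebraic ℚ ((period m e u : ℂ) ^ m * (P Φ u / P Ψ u) ^ N)

/-- Wüstholz's theorem for the periods `P Φ u`. -/
def Wustholz (m : ℕ) (P : Set (ZMod m)ˣ → (ZMod m)ˣ → ℂ) : Prop :=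
  ∀ Φ Ψ : Set (ZMod m)ˣ, IsCMType m Φ → IsCMType m Ψ → Φ ≠ Ψ →
    ∀ u, Transcendental ℚ (P Φ u / P Ψ u)

variable {m : ℕ} [NeZero m]

lemma val_unit_mul_ne {u : (ZMod m)ˣ} {a : ZMod m} (ha : a ≠ 0) : (u : ZMod m) * a ≠ 0 := by
  intro h
  exact ha ((Units.mul_right_eq_zero u).1 h)

lemma gam_pos {u : (ZMod m)ˣ} {a : ZMod m} (ha : a ≠ 0) :
    0 < Real.Gamma ((((u : ZMod m) * a).val : ℝ) / m) ^ 2 / Real.pi := by
  have h1 : 0 < ((u : ZMod m) * a).val := by
    rw [Nat.pos_iff_ne_zero, ne_eq, ZMod.val_eq_zero]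
    exact val_unit_mul_ne ha
  have h2 : 0 < m := Nat.pos_of_ne_zero (NeZero.ne m)
  have h3 : (0 : ℝ) < (((u : ZMod m) * a).val : ℝ) / m := by positivity
  have h4 := Real.Gamma_pos_of_pos h3
  positivity

lemma period_pos (e : ZMod m → ℤ) (u : (ZMod m)ˣ) : 0 < period m e u := by
  refine Finset.prod_pos fun a _ => ?_
  split_ifs with h
  · exact one_pos
  · exact zpow_pos (gam_pos h) _

/-- the combination of translates -/
def comb (α : (ZMod m)ˣ → ℤ) (e : ZMod m → ℤ) (a : ZMod m) : ℤ :=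
  ∑ g : (ZMod m)ˣ, α g * e ((g⁻¹ : (ZMod m)ˣ) * a)

lemma excess_comb (α : (ZMod m)ˣ → ℤ) (e : ZMod m → ℤ) (u : (ZMod m)ˣ) :
    excess m (comb α e) u = ∑ g, α g * excess m e (u * g) := by
  have h1 : ∀ g : (ZMod m)ˣ, α g * excess m e (u * g)
      = ∑ a : ZMod m, if a = 0 then 0 else
        α g * e ((g⁻¹ : (ZMod m)ˣ) * a) * (2 * (((u : ZMod m) * a).val : ℤ) - m) := by
    intro g
    rw [excess, Finset.mul_sum, ← Equiv.sum_comp (Units.mulLeft g⁻¹)]
    refine Finset.sum_congr rfl fun a _ => ?_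
    have e1 : (Units.mulLeft g⁻¹) a = (g⁻¹ : (ZMod m)ˣ) * a := rfl
    rw [e1]
    have e2 : ((g⁻¹ : (ZMod m)ˣ) : ZMod m) * a = 0 ↔ a = 0 := Units.mul_right_eq_zero _
    have e3 : ((u * g : (ZMod m)ˣ) : ZMod m) * ((g⁻¹ : (ZMod m)ˣ) * a) = u * a := by
      rw [Units.val_mul, mul_assoc, Units.mul_inv_cancel_left]
    rw [e3]
    by_cases ha : a = 0
    · rw [if_pos (e2.2 ha), if_pos ha, mul_zero]
    · rw [if_neg (fun h => ha (e2.1 h)), if_neg ha, mul_assoc]
  rw [Finset.sum_congr rfl fun g _ => h1 g, Finset.sum_comm, excess]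
  refine Finset.sum_congr rfl fun a _ => ?_
  by_cases ha : a = 0
  · simp [ha]
  · simp only [if_neg ha]
    rw [comb, Finset.sum_mul]

lemma period_comb (α : (ZMod m)ˣ → ℤ) (e : ZMod m → ℤ) (u : (ZMod m)ˣ) :
    period m (comb α e) u = ∏ g, period m e (u * g) ^ α g := by
  have h1 : ∀ g : (ZMod m)ˣ, period m e (u * g) ^ α g
      = ∏ a : ZMod m, if a = 0 then 1 else
        (Real.Gamma ((((u : ZMod m) * a).val : ℝ) / m) ^ 2 / Real.pi) ^
          (α g * e ((g⁻¹ : (ZMod m)ˣ) * a)) := by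
    intro g
    rw [period, ← Finset.prod_zpow, ← Equiv.prod_comp (Units.mulLeft g⁻¹)]
    refine Finset.prod_congr rfl fun a _ => ?_
    have e1 : (Units.mulLeft g⁻¹) a = (g⁻¹ : (ZMod m)ˣ) * a := rfl
    rw [e1]
    have e2 : ((g⁻¹ : (ZMod m)ˣ) : ZMod m) * a = 0 ↔ a = 0 := Units.mul_right_eq_zero _
    have e3 : ((u * g : (ZMod m)ˣ) : ZMod m) * ((g⁻¹ : (ZMod m)ˣ) * a) = u * a := by
      rw [Units.val_mul, mul_assoc, Units.mul_inv_cancel_left]
    rw [e3]
    by_cases ha : a = 0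
    · rw [if_pos (e2.2 ha), if_pos ha, one_zpow]
    · rw [if_neg (fun h => ha (e2.1 h)), if_neg ha, mul_comm (α g), zpow_mul]
  rw [Finset.prod_congr rfl fun g _ => h1 g, Finset.prod_comm, period]
  refine Finset.prod_congr rfl fun a _ => ?_
  by_cases ha : a = 0
  · simp [ha]
  · simp only [if_neg ha]
    rw [comb]
    have hpos := (gam_pos (u := u) ha).ne'
    generalize Real.Gamma ((((u : ZMod m) * a).val : ℝ) / m) ^ 2 / Real.pi = x at hpos
    induction (Finset.univ : Finset (ZMod m)ˣ) using Finset.induction_on with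
    | empty => simp
    | insert g s hg ih => rw [Finset.sum_insert hg, Finset.prod_insert hg, zpow_add₀ hpos, ih]

lemma val_neg_of_ne {a : ZMod m} (ha : a ≠ 0) : ((-a).val : ℤ) = m - a.val := by
  have h := ZMod.neg_val a
  rw [if_neg ha] at h
  rw [h, Nat.cast_sub (ZMod.val_lt a).le]

lemma excess_neg (e : ZMod m → ℤ) (u : (ZMod m)ˣ) : excess m e (-u) = -excess m e u := by
  rw [excess, excess, ← Finset.sum_neg_distrib]
  refine Finset.sum_congr rfl fun a _ => ?_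
  by_cases ha : a = 0
  · simp [ha]
  · rw [if_neg ha, if_neg ha, Units.val_neg, neg_mul, val_neg_of_ne (val_unit_mul_ne ha)]
    ring

/-- the CM type of the small residues -/
lemma exists_type (hm : 2 < m) : ∃ Φ : Set (ZMod m)ˣ, IsCMType m Φ := by
  refine ⟨{u | 2 * (u : ZMod m).val < m}, fun u => ?_⟩
  simp only [Set.mem_ofPred_eq, Units.val_neg]
  have : Fact (1 < m) := ⟨by omega⟩
  have h1 : (u : ZMod m) ≠ 0 := u.ne_zero
  have h2 := val_neg_of_ne h1
  have h3 : 2 * (u : ZMod m).val ≠ m := by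
    intro h4
    have h5 : Nat.Coprime (u : ZMod m).val m := ZMod.val_coe_unit_coprime u
    have h6 : (u : ZMod m).val ∣ m := ⟨2, by omega⟩
    have h7 := Nat.Coprime.eq_one_of_dvd h5 h6
    omega
  omega

/-- a difference of two CM types -/
lemma exists_types (f : (ZMod m)ˣ → ℤ) (hodd : ∀ u, f (-u) = -f u) (hf : f ≠ 0)
    (hv : ∀ u, f u = 0 ∨ f u = 1 ∨ f u = -1) :
    ∃ Φ Ψ : Set (ZMod m)ˣ, IsCMType m Φ ∧ IsCMType m Ψ ∧ Φ ≠ Ψ ∧
      ∀ u, f u = ind Φ u - ind Ψ u := by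
  classical
  have hm : 2 < m := by
    by_contra hcon
    obtain ⟨u, hu⟩ := Function.ne_iff.1 hf
    have h1 : -u = u := by
      have hm0 : m ≠ 0 := NeZero.ne m
      have h2 : m = 1 ∨ m = 2 := by omega
      rcases h2 with rfl | rfl
      · exact Subsingleton.elim _ _
      · exact Subsingleton.elim _ _
    have h2 := hodd u
    rw [h1] at h2
    apply hu
    change f u = 0
    omega
  obtain ⟨Θ, hΘ⟩ := exists_type hm
  refine ⟨{u | f u = 1 ∨ (f u = 0 ∧ u ∈ Θ)}, {u | f u = -1 ∨ (f u = 0 ∧ u ∈ Θ)}, ?_, ?_, ?_, ?_⟩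
  · intro u
    simp only [Set.mem_ofPred_eq, hodd u]
    rcases hv u with h | h | h <;> simp [h]
    exact hΘ u
  · intro u
    simp only [Set.mem_ofPred_eq, hodd u]
    rcases hv u with h | h | h <;> simp [h]
    exact hΘ u
  · intro heq
    apply hf
    funext u
    have h1 : u ∈ {u | f u = 1 ∨ (f u = 0 ∧ u ∈ Θ)} ↔ u ∈ {u | f u = -1 ∨ (f u = 0 ∧ u ∈ Θ)} := by
      rw [heq]
    simp only [Set.mem_ofPred_eq] at h1
    rcases hv u with h | h | h
    · exact h
    · simp [h] at h1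
    · simp [h] at h1
  · intro u
    simp only [ind, Set.mem_ofPred_eq]
    rcases hv u with h | h | h
    · by_cases hu : u ∈ Θ <;> simp [h, hu]
    · simp [h]
    · simp [h]

/-- **If all conjugates of a product of gamma values are algebraic (up to the power of `π`) then the
excess is zero.** -/
theorem excess_eq_zero (P : Set (ZMod m)ˣ → (ZMod m)ˣ → ℂ) (hD : Deligne m P) (hW : Wustholz m P)
    (e : ZMod m → ℤ) (he : ∀ u, IsAlgebraic ℚ (period m e u)) (u : (ZMod m)ˣ) :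
    excess m e u = 0 := by
  classical
  by_contra hne
  obtain ⟨N, α, f, hN, h1, hf0, hfv⟩ := exists_translates (fun u => excess m e u)
    (fun h => hne (congrFun h u))
  have hodd : ∀ u, f (-u) = -f u := by
    intro u
    have h2 : N * f (-u) = N * (-f u) := by
      rw [← h1 (-u), mul_neg, ← h1 u, ← Finset.sum_neg_distrib]
      refine Finset.sum_congr rfl fun g _ => ?_
      rw [neg_mul, excess_neg, mul_neg]
    exact mul_left_cancel₀ hN.ne' h2
  obtain ⟨Φ, Ψ, hΦ, hΨ, hΦΨ, hf⟩ := exists_types f hodd hf0 hfv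
  have h2 := hD Φ Ψ hΦ hΨ N (comb α e) (fun u => by rw [excess_comb, h1 u, hf u]) u
  have h3 : IsAlgebraic ℚ (period m (comb α e) u) := by
    rw [period_comb]
    refine Finset.prod_induction _ (fun x => IsAlgebraic ℚ x) (fun _ _ h h' => h.mul h')
      isAlgebraic_one fun g _ => ?_
    cases α g with
    | ofNat n => rw [Int.ofNat_eq_natCast, zpow_natCast]; exact (he _).pow n
    | negSucc n => rw [zpow_negSucc]; exact ((he _).pow _).inv
  have h4 : IsAlgebraic ℚ ((period m (comb α e) u : ℂ) ^ m) := by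
    have h7 : IsAlgebraic ℚ (algebraMap ℝ ℂ (period m (comb α e) u)) := h3.algebraMap
    exact h7.pow m
  have h5 : ((period m (comb α e) u : ℂ) ^ m) ≠ 0 :=
    pow_ne_zero _ (Complex.ofReal_ne_zero.2 (period_pos _ _).ne')
  have h6 : IsAlgebraic ℚ ((P Φ u / P Ψ u) ^ N) := by
    have h7 := h4.inv.mul h2
    rwa [← mul_assoc, inv_mul_cancel₀ h5, one_mul] at h7
  apply hW Φ Ψ hΦ hΨ hΦΨ u
  lift N to ℕ using hN.le
  rw [zpow_natCast] at h6
  exact IsAlgebraic.of_pow (by exact_mod_cast hN) h6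

end Pool.Agent.N214.GP
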