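import Pool.Agent.N214.GP.Gam
import Pool.Agent.N993.Fin
import Pool.Agent.N992.Four

/-!
# De Rham-Betti characters are Hodge characters
-/

set_option autoImplicit false

namespace Pool.Agent.N214.GP

open Finset Pool.Agent.H916R2

/-- The character `s` of the group acting on the Fermat variety of degree `m` (a multiset of nonzero
residues modulo `m` with sum zero) is a de Rham-Betti character: for every unit `u` the product of
the numbers `Γ(⟨u a⟩ / m) ^ 2 / π`, `a ∈ s`, is algebraic. -/
def IsDeRhamBetti (m : ℕ) (s : Multiset (ZMod m)) : Prop :=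
  (0 : ZMod m) ∉ s ∧ s.sum = 0 ∧ ∀ u : (ZMod m)ˣ, IsAlgebraic ℚ
    (s.map fun a => Real.Gamma ((((u : ZMod m) * a).val : ℝ) / m) ^ 2 / Real.pi).prod

variable {m : ℕ} [NeZero m]

/-- the multiplicities as exponents -/
def mult (s : Multiset (ZMod m)) (a : ZMod m) : ℤ := s.count a

lemma period_mult (s : Multiset (ZMod m)) (hs : (0 : ZMod m) ∉ s) (u : (ZMod m)ˣ) :
    period m (mult s) u
      = (s.map fun a => Real.Gamma ((((u : ZMod m) * a).val : ℝ) / m) ^ 2 / Real.pi).prod := by
  classical
  rw [Finset.prod_multiset_map_count, period]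
  symm
  refine Finset.prod_subset_one_on_sdiff (Finset.subset_univ _) (fun a ha => ?_) (fun a ha => ?_)
  · have h1 : a ∉ s := fun h => (Finset.mem_sdiff.1 ha).2 (Multiset.mem_toFinset.2 h)
    rw [mult, Multiset.count_eq_zero_of_notMem h1]
    simp
  · have h1 : a ∈ s := Multiset.mem_toFinset.1 ha
    rw [if_neg (fun h : a = 0 => hs (h ▸ h1)), mult, zpow_natCast]

lemma excess_mult (s : Multiset (ZMod m)) (hs : (0 : ZMod m) ∉ s) (u : (ZMod m)ˣ) :
    excess m (mult s) u
      = 2 * ((s.map fun a => ((u : ZMod m) * a).val).sum : ℤ) - m * Multiset.card s := by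
  classical
  have h1 : excess m (mult s) u = (s.map fun a => (2 * ((((u : ZMod m) * a).val : ℕ) : ℤ) - m)).sum := by
    rw [Finset.sum_multiset_map_count, excess]
    symm
    refine Finset.sum_subset_zero_on_sdiff (Finset.subset_univ _) (fun a ha => ?_) (fun a ha => ?_)
    · have h1 : a ∉ s := fun h => (Finset.mem_sdiff.1 ha).2 (Multiset.mem_toFinset.2 h)
      rw [mult, Multiset.count_eq_zero_of_notMem h1]
      simp
    · have h1 : a ∈ s := Multiset.mem_toFinset.1 ha
      rw [if_neg (fun h : a = 0 => hs (h ▸ h1)), mult, nsmul_eq_mul]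
  rw [h1]
  clear h1 hs
  induction s using Multiset.induction_on with
  | empty => simp
  | cons a s ih =>
    simp only [Multiset.map_cons, Multiset.sum_cons, Multiset.card_cons, Nat.cast_add, Nat.cast_one]
    rw [ih]
    ring

lemma even_card {s : Multiset (ZMod m)} (hsum : s.sum = 0)
    (h : 2 * (s.map fun a => (((1 : (ZMod m)ˣ) : ZMod m) * a).val).sum = m * Multiset.card s) :
    Even (Multiset.card s) := by
  have h1 : (((s.map fun a => (((1 : (ZMod m)ˣ) : ZMod m) * a).val).sum : ℕ) : ZMod m) = 0 := by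
    rw [Nat.cast_multiset_sum, Multiset.map_map]
    simp [hsum]
  rw [ZMod.natCast_eq_zero_iff] at h1
  obtain ⟨k, hk⟩ := h1
  rw [hk] at h
  have hm : 0 < m := Nat.pos_of_ne_zero (NeZero.ne m)
  refine ⟨k, ?_⟩
  have h2 : m * (2 * k) = m * Multiset.card s := by rw [← h]; ring
  have h3 := Nat.eq_of_mul_eq_mul_left hm h2
  omega

/-- **De Rham-Betti characters are Hodge characters.** -/
theorem isHodge_of_isDeRhamBetti (P : Set (ZMod m)ˣ → (ZMod m)ˣ → ℂ) (hD : Deligne m P)
    (hW : Wustholz m P) (s : Multiset (ZMod m)) (hs : IsDeRhamBetti m s) : IsHodge m s := by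
  obtain ⟨h0, hsum, halg⟩ := hs
  have h1 : ∀ u : (ZMod m)ˣ, 2 * (s.map fun a => ((u : ZMod m) * a).val).sum = m * Multiset.card s := by
    intro u
    have h2 := excess_eq_zero P hD hW (mult s) (fun u => by rw [period_mult s h0]; exact halg u) u
    rw [excess_mult s h0] at h2
    have h3 : ((2 * (s.map fun a => ((u : ZMod m) * a).val).sum : ℕ) : ℤ)
        = ((m * Multiset.card s : ℕ) : ℤ) := by
      push_cast
      push_cast at h2
      linarith
    exact_mod_cast h3
  exact ⟨h0, even_card hsum (h1 1), hsum, h1⟩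

/-- **Hodge characters are de Rham-Betti characters.** -/
theorem isDeRhamBetti_of_isHodge (P : Set (ZMod m)ˣ → (ZMod m)ˣ → ℂ) (hD : Deligne m P)
    (s : Multiset (ZMod m)) (hs : IsHodge m s) : IsDeRhamBetti m s := by
  obtain ⟨h0, -, hsum, hH⟩ := hs
  refine ⟨h0, hsum, fun u => ?_⟩
  rcases Nat.lt_or_ge 2 m with hm | hm
  · obtain ⟨Φ, hΦ⟩ := exists_type hm
    have h1 := hD Φ Φ hΦ hΦ 0 (mult s) (fun u => by
      rw [excess_mult s h0, zero_mul, sub_eq_zero]
      have h2 := hH u
      have h3 : ((2 * (s.map fun a => ((u : ZMod m) * a).val).sum : ℕ) : ℤ)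
          = ((m * Multiset.card s : ℕ) : ℤ) := by rw [h2]
      push_cast at h3
      push_cast
      exact h3) u
    rw [zpow_zero, mul_one] at h1
    have h2 := IsAlgebraic.of_pow (Nat.pos_of_ne_zero (NeZero.ne m)) h1
    have h3 : IsAlgebraic ℚ (algebraMap ℝ ℂ (period m (mult s) u)) := h2
    rw [isAlgebraic_algebraMap_iff (algebraMap ℝ ℂ).injective] at h3
    rwa [period_mult s h0] at h3
  · have h1 : ∀ a ∈ s, Real.Gamma ((((u : ZMod m) * a).val : ℝ) / m) ^ 2 / Real.pi = 1 := by
      intro a ha
      have ha0 : a ≠ 0 := fun h => h0 (h ▸ ha)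
      have hm0 : m ≠ 0 := NeZero.ne m
      have h2 : m = 1 ∨ m = 2 := by omega
      rcases h2 with rfl | rfl
      · exact absurd (Subsingleton.elim a 0) ha0
      · have h3 : (((u : ZMod 2) * a).val) = 1 := by
          have h4 := val_unit_mul_ne (u := u) ha0
          generalize (u : ZMod 2) * a = b at h4
          revert b
          decide
        rw [h3]
        norm_num
        rw [Real.Gamma_one_half_eq, Real.sq_sqrt Real.pi_pos.le, div_self Real.pi_pos.ne']
    rw [Multiset.map_congr rfl h1]
    simp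
    exact isAlgebraic_one

end Pool.Agent.N214.GP
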